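import Mathlib

set_option autoImplicit false

/-!
# A chordal graph whose extremal pebbling configuration is not simplicial

The graph is the path `0, 1, 2, 3, 4` together with a vertex `5` which is joined to all vertices of
the path.  Its simplicial vertices are the ends `0` and `4` of the path.  The target is one pebble
on each of `0` and `4`.  Seven pebbles on the vertex `2` do not solve it, but five pebbles on
simplicial vertices do.
-/

namespace Pool.Agent.Results.MP_294a3d_co.Fan

open Finset

section Definitions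

variable {V : Type} [Fintype V] [DecidableEq V] (G : SimpleGraph V)

/-- A pebbling step `u ↦ v` removes two pebbles from `u` and adds one pebble to the adjacent
vertex `v`. -/
def Step (C C' : V → ℕ) : Prop :=
  ∃ u v, G.Adj u v ∧ 2 ≤ C u ∧ C' = fun x => if x = u then C u - 2 else if x = v then C v + 1 else C x

/-- `C` is `D`-solvable. -/
def Solvable (D C : V → ℕ) : Prop :=
  ∃ C', Relation.ReflTransGen (Step G) C C' ∧ ∀ v, D v ≤ C' v

/-- `C` is `D`-maximal: it is `D`-unsolvable, but adding one pebble at any vertex makes it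
`D`-solvable. -/
def IsMaximal (D C : V → ℕ) : Prop :=
  ¬ Solvable G D C ∧ ∀ u, Solvable G D (fun x => if x = u then C x + 1 else C x)

/-- `C` is `D`-extremal: it is `D`-maximal and of maximum size among the `D`-maximal
configurations. -/
def IsExtremal (D C : V → ℕ) : Prop :=
  IsMaximal G D C ∧ ∀ C', IsMaximal G D C' → ∑ v, C' v ≤ ∑ v, C v

/-- The neighbours of `v` form a clique. -/
def IsSimplicial (v : V) : Prop := ∀ x y, G.Adj v x → G.Adj v y → x ≠ y → G.Adj x y

/-- `G` has no induced cycle of length at least 4. -/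
def IsChordal : Prop := ∀ n : ℕ, 4 ≤ n → IsEmpty (SimpleGraph.cycleGraph n ↪g G)

end Definitions

section General

variable {V : Type} [DecidableEq V] {G : SimpleGraph V}

lemma step_add {C C' : V → ℕ} (E : V → ℕ) (h : Step G C C') : Step G (C + E) (C' + E) := by
  obtain ⟨u, v, huv, hu, rfl⟩ := h
  refine ⟨u, v, huv, by simp only [Pi.add_apply]; omega, ?_⟩
  funext x
  simp only [Pi.add_apply]
  split_ifs with h1 h2
  · subst h1; omega
  · subst h2; omega
  · rfl

lemma Solvable.mono {D C E : V → ℕ} (h : Solvable G D C) (hE : ∀ v, C v ≤ E v) :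
    Solvable G D E := by
  obtain ⟨F, rfl⟩ : ∃ F : V → ℕ, E = C + F := ⟨E - C, by
    funext v; simp only [Pi.add_apply, Pi.sub_apply]; have := hE v; omega⟩
  obtain ⟨C', hC', hD⟩ := h
  refine ⟨C' + F, ?_, fun v => (hD v).trans (Nat.le_add_right _ _)⟩
  clear hE hD
  induction hC' with
  | refl => exact Relation.ReflTransGen.refl
  | tail _ h ih => exact ih.tail (step_add F h)

/-- Apply a list of pebbling steps. -/
def run (G : SimpleGraph V) [DecidableRel G.Adj] : List (V × V) → (V → ℕ) → Option (V → ℕ)
  | [], C => some C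
  | (u, v) :: l, C => if G.Adj u v ∧ 2 ≤ C u then
      run G l (fun x => if x = u then C u - 2 else if x = v then C v + 1 else C x) else none

lemma run_sound [DecidableRel G.Adj] (l : List (V × V)) (C C' : V → ℕ) (h : run G l C = some C') :
    Relation.ReflTransGen (Step G) C C' := by
  induction l generalizing C with
  | nil => simp only [run, Option.some.injEq] at h; rw [h]
  | cons a l ih =>
    obtain ⟨u, v⟩ := a
    simp only [run] at h
    split_ifs at h with h1
    exact Relation.ReflTransGen.head ⟨u, v, h1.1, h1.2, rfl⟩ (ih _ h)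

/-- The list of steps solves `C`. -/
def solves [Fintype V] (G : SimpleGraph V) [DecidableRel G.Adj] (D C : V → ℕ) (l : List (V × V)) : Bool :=
  match run G l C with
  | none => false
  | some C' => decide (∀ v, D v ≤ C' v)

lemma solves_sound [Fintype V] [DecidableRel G.Adj] {D C : V → ℕ} (l : List (V × V))
    (h : solves G D C l = true) : Solvable G D C := by
  unfold solves at h
  cases hr : run G l C with
  | none => rw [hr] at h; cases h
  | some C' =>
    rw [hr] at h
    exact ⟨C', run_sound l C C' hr, by simpa using h⟩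

end General

/-- The path `0, 1, 2, 3, 4` and the vertex `5` joined to all its vertices. -/
def adj (x y : Fin 6) : Bool :=
  (x.1 + 1 == y.1) || (y.1 + 1 == x.1) || (x != y && (x == 5 || y == 5))

/-- The graph. -/
def G : SimpleGraph (Fin 6) where
  Adj x y := adj x y = true
  symm := ⟨by decide⟩
  loopless := ⟨by decide⟩

instance : DecidableRel G.Adj := fun x y => inferInstanceAs (Decidable (adj x y = true))

/-- The target: one pebble on each of the two ends of the path. -/
def D : Fin 6 → ℕ := ![1, 0, 0, 0, 1, 0]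

lemma connected : G.Connected := by
  have h : ∀ x : Fin 6, G.Reachable 5 x := by
    intro x
    by_cases hx : x = 5
    · subst hx; exact SimpleGraph.Reachable.refl _
    · refine SimpleGraph.Adj.reachable ?_
      revert hx x; decide
  exact ⟨fun x y => (h x).symm.trans (h y)⟩

/-- The later neighbours of every vertex form a clique. -/
lemma peo : ∀ x y z : Fin 6, x < y → x < z → G.Adj x y → G.Adj x z → y ≠ z → G.Adj y z := by
  decide

lemma chordal : IsChordal G := by
  intro n hn
  refine ⟨fun f => ?_⟩
  obtain ⟨m, rfl⟩ : ∃ m, n = m + 4 := ⟨n - 4, by omega⟩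
  obtain ⟨i, -, hi⟩ := Finset.exists_min_image (Finset.univ : Finset (Fin (m + 4))) f
    Finset.univ_nonempty
  have hlt : ∀ j, j ≠ i → f i < f j := fun j hj =>
    lt_of_le_of_ne (hi j (Finset.mem_univ j)) (fun h => hj (f.injective h).symm)
  have h1 : (SimpleGraph.cycleGraph (m + 4)).Adj i (i + 1) := by
    rw [SimpleGraph.cycleGraph_adj]; right; exact add_sub_cancel_left i 1
  have h2 : (SimpleGraph.cycleGraph (m + 4)).Adj i (i - 1) := by
    rw [SimpleGraph.cycleGraph_adj]; left; exact sub_sub_cancel i 1
  have hone : (1 : Fin (m + 4)).val = 1 := by simp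
  have htwo : (1 + 1 : Fin (m + 4)).val = 2 := by
    rw [Fin.val_add, hone]; exact Nat.mod_eq_of_lt (by omega)
  have hthree : (1 + 1 + 1 : Fin (m + 4)).val = 3 := by
    rw [Fin.val_add, htwo, hone]; exact Nat.mod_eq_of_lt (by omega)
  have hd : (i + 1) - (i - 1) = 1 + 1 := by abel
  have h3 : i + 1 ≠ i - 1 := by
    intro h
    rw [h, sub_self] at hd
    rw [← hd] at htwo
    simp at htwo
  have h4 := peo _ _ _ (hlt _ h1.ne') (hlt _ h2.ne') (f.map_rel_iff.2 h1) (f.map_rel_iff.2 h2)
    (fun h => h3 (f.injective h))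
  have h5 := f.map_rel_iff.1 h4
  rw [SimpleGraph.cycleGraph_adj] at h5
  rcases h5 with h5 | h5
  · rw [hd] at h5
    rw [h5, hone] at htwo
    omega
  · have h6 : (1 + 1 + 1 : Fin (m + 4)) = 0 := by
      calc (1 + 1 + 1 : Fin (m + 4)) = (i - 1) - (i + 1) + (1 + 1) := by rw [h5]; abel
        _ = 0 := by abel
    rw [h6] at hthree
    simp at hthree

/-- The weight of a configuration does not increase in a pebbling step. -/
lemma weight (C C' : Fin 6 → ℕ) (h : Step G C C') :
    4 * C' 0 + 2 * C' 1 + C' 2 + 2 * C' 3 + 4 * C' 4 + 2 * C' 5 ≤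
      4 * C 0 + 2 * C 1 + C 2 + 2 * C 3 + 4 * C 4 + 2 * C 5 := by
  obtain ⟨u, v, huv, hu, rfl⟩ := h
  fin_cases u <;> fin_cases v <;> first
    | exact absurd huv (by decide)
    | (simp at hu ⊢; omega)

lemma weight_le (C C' : Fin 6 → ℕ) (h : Relation.ReflTransGen (Step G) C C') :
    4 * C' 0 + 2 * C' 1 + C' 2 + 2 * C' 3 + 4 * C' 4 + 2 * C' 5 ≤
      4 * C 0 + 2 * C 1 + C 2 + 2 * C 3 + 4 * C 4 + 2 * C 5 := by
  induction h with
  | refl => exact le_rfl
  | tail _ h ih => exact (weight _ _ h).trans ih

/-- Seven pebbles on the middle vertex do not solve the target. -/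
lemma unsolvable : ¬ Solvable G D ![0, 0, 7, 0, 0, 0] := by
  rintro ⟨C', h, hD⟩
  have h1 := weight_le _ _ h
  have h2 : 1 ≤ C' 0 := hD 0
  have h3 : 1 ≤ C' 4 := hD 4
  simp at h1
  omega

/-- Eight pebbles on one vertex solve the target. -/
lemma eight : ∀ x : Fin 6, Solvable G D (fun y => if y = x then 8 else 0) := by
  intro x
  fin_cases x
  · exact solves_sound [(0, 5), (0, 5), (5, 4)] (by decide)
  · exact solves_sound [(1, 5), (1, 5), (5, 4), (1, 0)] (by decide)
  · exact solves_sound [(2, 5), (2, 5), (5, 4), (2, 5), (2, 5), (5, 0)] (by decide)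
  · exact solves_sound [(3, 5), (3, 5), (5, 0), (3, 4)] (by decide)
  · exact solves_sound [(4, 5), (4, 5), (5, 0)] (by decide)
  · exact solves_sound [(5, 0), (5, 4)] (by decide)

lemma five_left : Solvable G D ![5, 0, 0, 0, 0, 0] :=
  solves_sound [(0, 5), (0, 5), (5, 4)] (by decide)

lemma five_right : Solvable G D ![0, 0, 0, 0, 5, 0] :=
  solves_sound [(4, 5), (4, 5), (5, 0)] (by decide)

/-- Unsolvable configurations have at most 42 pebbles. -/
lemma bounded (C : Fin 6 → ℕ) (h : ¬ Solvable G D C) : ∑ v, C v ≤ 42 := by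
  by_contra hlt
  apply h
  obtain ⟨x, hx⟩ : ∃ x, 8 ≤ C x := by
    by_contra hno
    push Not at hno
    apply hlt
    calc ∑ v, C v ≤ ∑ _v : Fin 6, 7 := Finset.sum_le_sum fun v _ => by have := hno v; omega
      _ = 42 := by simp
  refine (eight x).mono fun y => ?_
  split_ifs with hy
  · subst hy; exact hx
  · exact Nat.zero_le _

/-- There is an extremal configuration. -/
lemma exists_extremal : ∃ C, IsExtremal G D C ∧ 7 ≤ ∑ v, C v := by
  obtain ⟨C, hC, hmax⟩ : ∃ C, ¬ Solvable G D C ∧ ∀ C', ¬ Solvable G D C' → ∑ v, C' v ≤ ∑ v, C v := by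
    classical
    let P : ℕ → Prop := fun k => ∃ C, ¬ Solvable G D C ∧ ∑ v, C v = k
    have hP : P (Nat.findGreatest P 42) := Nat.findGreatest_spec (P := P) (m := 7) (by norm_num)
      ⟨_, unsolvable, by decide⟩
    obtain ⟨C, hC, hk⟩ := hP
    refine ⟨C, hC, fun C' hC' => ?_⟩
    rw [hk]
    exact Nat.le_findGreatest (bounded C' hC') ⟨C', hC', rfl⟩
  refine ⟨C, ⟨⟨hC, fun u => ?_⟩, fun C' hC' => hmax C' hC'.1⟩, ?_⟩
  · by_contra hu
    have h1 := hmax _ hu
    have h2 : ∑ v, (if v = u then C v + 1 else C v) = ∑ v, C v + 1 := by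
      have : ∀ v, (if v = u then C v + 1 else C v) = C v + if v = u then 1 else 0 := by
        intro v; split_ifs <;> rfl
      rw [Finset.sum_congr rfl fun v _ => this v, Finset.sum_add_distrib]
      simp
    omega
  · have h1 := hmax _ unsolvable
    rwa [show ∑ v, (![0, 0, 7, 0, 0, 0] : Fin 6 → ℕ) v = 7 from by decide] at h1

lemma not_simplicial : ∀ v : Fin 6, v ≠ 0 → v ≠ 4 → ¬ IsSimplicial G v := by
  unfold IsSimplicial
  decide

/-- There are a connected chordal graph `G`, a target `D` and a `D`-extremal configuration `C` such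
that every `D`-unsolvable configuration of size at least `|C|` puts a pebble on a vertex which is
not simplicial. -/
theorem result : ∃ G : SimpleGraph (Fin 6), G.Connected ∧ IsChordal G ∧
    ∃ D C : Fin 6 → ℕ, IsExtremal G D C ∧
      ∀ C' : Fin 6 → ℕ, ¬ Solvable G D C' → ∑ v, C v ≤ ∑ v, C' v →
        ∃ v, C' v ≠ 0 ∧ ¬ IsSimplicial G v := by
  obtain ⟨C, hC, h7⟩ := exists_extremal
  refine ⟨G, connected, chordal, D, C, hC, fun C' hC' hle => ?_⟩
  by_contra hno
  push Not at hno
  have h0 : ∀ v : Fin 6, v ≠ 0 → v ≠ 4 → C' v = 0 := by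
    intro v h0 h4
    by_contra hv
    exact not_simplicial v h0 h4 (hno v hv)
  have h1 := h0 1 (by decide) (by decide)
  have h2 := h0 2 (by decide) (by decide)
  have h3 := h0 3 (by decide) (by decide)
  have h5 := h0 5 (by decide) (by decide)
  rw [Fin.sum_univ_six C'] at hle
  apply hC'
  rcases Nat.eq_zero_or_pos (C' 0) with ha | ha
  · refine five_right.mono fun v => ?_
    fin_cases v <;> simp <;> omega
  · rcases Nat.eq_zero_or_pos (C' 4) with hb | hb
    · refine five_left.mono fun v => ?_
      fin_cases v <;> simp <;> omega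
    · refine ⟨C', Relation.ReflTransGen.refl, fun v => ?_⟩
      fin_cases v <;> simp [D] <;> omega

end Pool.Agent.Results.MP_294a3d_co.Fan
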